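import Mathlib
import Pool.Agent.Q167.VC.Stm

/-!
Project VC (helper167), jobs ROO and DIF (helper181): the polynomials `P_j` and the
characteristic polynomial `P_p - z P_{p-1}`.
-/

open Finset Filter Topology Polynomial

namespace Pool.Agent.Q181.VC

open Pool.Agent.Q167.VC

/-- `P_j` as a polynomial. -/
noncomputable def Pp : ℕ → ℂ[X]
  | 0 => 1
  | 1 => X - C 1
  | j + 2 => X * Pp (j + 1) - Pp j

lemma eval_Pp (h : ℂ) : ∀ j, (Pp j).eval h = PP h j
  | 0 => by simp [Pp, PP]
  | 1 => by simp [Pp, PP]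
  | j + 2 => by simp [Pp, PP, eval_Pp h (j + 1), eval_Pp h j]

lemma Pp_deg : ∀ j, (Pp j).Monic ∧ (Pp j).natDegree = j
  | 0 => by simp [Pp]
  | 1 => by
      simp only [Pp]
      exact ⟨monic_X_sub_C 1, natDegree_X_sub_C 1⟩
  | j + 2 => by
      obtain ⟨m1, d1⟩ := Pp_deg (j + 1)
      obtain ⟨m0, d0⟩ := Pp_deg j
      have hm : (X * Pp (j + 1) : ℂ[X]).Monic := monic_X.mul m1
      have hd : (X * Pp (j + 1) : ℂ[X]).natDegree = j + 2 := by
        rw [monic_X.natDegree_mul m1, natDegree_X, d1]; ring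
      have hlt : (Pp j).degree < (X * Pp (j + 1) : ℂ[X]).degree := by
        rw [degree_eq_natDegree m0.ne_zero, degree_eq_natDegree hm.ne_zero, hd, d0]
        exact_mod_cast (by omega : j < j + 2)
      refine ⟨?_, ?_⟩
      · simp only [Pp]; exact hm.sub_of_left hlt
      · simp only [Pp]
        rw [natDegree_sub_eq_left_of_natDegree_lt (natDegree_lt_natDegree m0.ne_zero hlt), hd]

/-- The characteristic polynomial. -/
noncomputable def Qp (p : ℕ) (z : ℂ) : ℂ[X] := Pp p - C z * Pp (p - 1)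

lemma eval_Qp (p : ℕ) (z h : ℂ) : (Qp p z).eval h = PP h p - z * PP h (p - 1) := by
  simp [Qp, eval_Pp]

lemma Qp_deg (p : ℕ) (hp : 1 ≤ p) (z : ℂ) : (Qp p z).Monic ∧ (Qp p z).natDegree = p := by
  obtain ⟨m1, d1⟩ := Pp_deg p
  obtain ⟨m0, d0⟩ := Pp_deg (p - 1)
  have hle : (C z * Pp (p - 1)).degree ≤ (Pp (p - 1)).degree := by
    by_cases hz : z = 0
    · simp [hz]
    · rw [degree_C_mul hz]
  have hlt' : (Pp (p - 1)).degree < (Pp p).degree := by
    rw [degree_eq_natDegree m0.ne_zero, degree_eq_natDegree m1.ne_zero, d1, d0]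
    exact_mod_cast (by omega : p - 1 < p)
  have hlt := lt_of_le_of_lt hle hlt'
  refine ⟨m1.sub_of_left hlt, ?_⟩
  unfold Qp
  by_cases h0 : C z * Pp (p - 1) = 0
  · rw [h0, sub_zero, d1]
  · rw [natDegree_sub_eq_left_of_natDegree_lt (natDegree_lt_natDegree h0 hlt), d1]

lemma isRoot_Qp {p : ℕ} {z h : ℂ} : (Qp p z).IsRoot h ↔ PP h p = z * PP h (p - 1) := by
  rw [IsRoot.def, eval_Qp, sub_eq_zero]

/-- A family of `p` distinct roots contains all roots, and the roots are simple. -/
lemma roots_all {p : ℕ} (hp : 1 ≤ p) {z : ℂ} {r : Fin p → ℂ} (hr : Function.Injective r)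
    (hroot : ∀ m, PP (r m) p = z * PP (r m) (p - 1)) {h : ℂ}
    (hh : PP h p = z * PP h (p - 1)) : ∃ m, h = r m := by
  classical
  obtain ⟨hm, hd⟩ := Qp_deg p hp z
  have h1 : (univ.image r) ⊆ (Qp p z).roots.toFinset := by
    intro x hx
    obtain ⟨m, -, rfl⟩ := Finset.mem_image.1 hx
    rw [Multiset.mem_toFinset, mem_roots hm.ne_zero]
    exact isRoot_Qp.2 (hroot m)
  have h2 : (univ.image r).card = p := by
    rw [Finset.card_image_of_injective _ hr, Finset.card_univ, Fintype.card_fin]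
  have h3 : (Qp p z).roots.toFinset.card ≤ (univ.image r).card := by
    rw [h2]
    calc _ ≤ Multiset.card (Qp p z).roots := Multiset.toFinset_card_le _
      _ ≤ (Qp p z).natDegree := card_roots' _
      _ = p := hd
  have h4 := Finset.eq_of_subset_of_card_le h1 h3
  have h5 : h ∈ (Qp p z).roots.toFinset := by
    rw [Multiset.mem_toFinset, mem_roots hm.ne_zero]
    exact isRoot_Qp.2 hh
  rw [← h4] at h5
  obtain ⟨m, -, hm'⟩ := Finset.mem_image.1 h5
  exact ⟨m, hm'.symm⟩

lemma simple_root {p : ℕ} (hp : 1 ≤ p) {z : ℂ} {r : Fin p → ℂ} (hr : Function.Injective r)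
    (hroot : ∀ m, PP (r m) p = z * PP (r m) (p - 1)) (m : Fin p) :
    (derivative (Qp p z)).eval (r m) ≠ 0 := by
  classical
  obtain ⟨hm, hd⟩ := Qp_deg p hp z
  intro hder
  have h1 : (univ.image r) ⊆ (Qp p z).roots.toFinset := by
    intro x hx
    obtain ⟨m, -, rfl⟩ := Finset.mem_image.1 hx
    rw [Multiset.mem_toFinset, mem_roots hm.ne_zero]
    exact isRoot_Qp.2 (hroot m)
  have h2 : (univ.image r).card = p := by
    rw [Finset.card_image_of_injective _ hr, Finset.card_univ, Fintype.card_fin]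
  have h3 : p ≤ (Qp p z).roots.toFinset.card := by
    have := Finset.card_le_card h1
    rwa [h2] at this
  have h4 : (Qp p z).roots.toFinset.card ≤ Multiset.card (Qp p z).roots :=
    Multiset.toFinset_card_le _
  have h5 : Multiset.card (Qp p z).roots ≤ p := (card_roots' _).trans hd.le
  have h6 : (Qp p z).roots.Nodup := by
    rw [← Multiset.toFinset_card_eq_card_iff_nodup]; omega
  have h7 : 1 < (Qp p z).rootMultiplicity (r m) := by
    rw [one_lt_rootMultiplicity_iff_isRoot hm.ne_zero]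
    exact ⟨isRoot_Qp.2 (hroot m), hder⟩
  have h8 := Multiset.nodup_iff_count_le_one.1 h6 (r m)
  rw [count_roots] at h8
  omega

end Pool.Agent.Q181.VC
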