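import Mathlib
import Pool.Agent.Q167.VC.Stm
import Pool.Agent.Q181.VC.Pol

/-!
Project VC (helper167), job DIF (helper181): the differential equation of the eigenvalues.
-/

open Finset Filter Topology Polynomial

namespace Pool.Agent.Q181.VC

open Pool.Agent.Q167.VC

lemma strips_inj {p : ℕ} (hp : 1 ≤ p) {r : Fin p → ℂ}
    (hs : ∀ m : Fin p, |al (r m) - ((m : ℝ) + 1) * Real.pi / p| < Real.pi / (2 * p)) :
    Function.Injective r := by
  intro m n hmn
  have h1 := hs m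
  have h2 := hs n
  rw [hmn] at h1
  have hp0 : (0 : ℝ) < p := by exact_mod_cast hp
  have hpi := Real.pi_pos
  rw [abs_lt] at h1 h2
  have e1 : Real.pi / (2 * p) = Real.pi / p / 2 := by field_simp
  have hq : 0 < Real.pi / p := by positivity
  have e2 : ((m : ℝ) + 1) * Real.pi / p = ((m : ℝ) + 1) * (Real.pi / p) := by ring
  have e3 : ((n : ℝ) + 1) * Real.pi / p = ((n : ℝ) + 1) * (Real.pi / p) := by ring
  rw [e1, e2] at h1
  rw [e1, e3] at h2
  set q := Real.pi / p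
  have h3 : ((m : ℝ) - n) * q < 1 * q := by linarith
  have h4 : ((n : ℝ) - m) * q < 1 * q := by linarith
  have h5 := lt_of_mul_lt_mul_right h3 hq.le
  have h6 := lt_of_mul_lt_mul_right h4 hq.le
  have h7 : (m : ℕ) < (n : ℕ) + 1 := by
    have : ((m : ℕ) : ℝ) < ((n : ℕ) : ℝ) + 1 := by linarith
    exact_mod_cast this
  have h8 : (n : ℕ) < (m : ℕ) + 1 := by
    have : ((n : ℕ) : ℝ) < ((m : ℕ) : ℝ) + 1 := by linarith
    exact_mod_cast this
  exact Fin.ext (by omega)

/-- derivative of `P_j` at `h`. -/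
noncomputable def DP (h : ℂ) (j : ℕ) : ℂ := (derivative (Pp j)).eval h

lemma DP_rec (h : ℂ) (j : ℕ) : DP h (j + 2) = PP h (j + 1) + h * DP h (j + 1) - DP h j := by
  simp only [DP, Pp, derivative_sub, derivative_mul, derivative_X, one_mul, eval_sub, eval_add,
    eval_mul, eval_X, eval_Pp]

lemma DP_formula (h : ℂ) : ∀ j : ℕ,
    (4 - h ^ 2) * DP h j = -(2 * j + 1) * PP h (j + 1) + ((j + 1) * h - 1) * PP h j
  | 0 => by simp [DP, Pp, PP]
  | 1 => by simp [DP, Pp, PP]; ring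
  | j + 2 => by
      have h1 := DP_formula h (j + 1)
      have h0 := DP_formula h j
      have e3 : PP h (j + 2 + 1) = h * PP h (j + 2) - PP h (j + 1) := rfl
      have e2 : PP h (j + 2) = h * PP h (j + 1) - PP h j := rfl
      have e2' : PP h (j + 1 + 1) = PP h (j + 2) := rfl
      rw [DP_rec, e3]
      rw [e2'] at h1
      have : (4 - h ^ 2) * (PP h (j + 1) + h * DP h (j + 1) - DP h j)
          = (4 - h ^ 2) * PP h (j + 1) + h * ((4 - h ^ 2) * DP h (j + 1))
            - (4 - h ^ 2) * DP h j := by ring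
      rw [this, h1, h0, e2]
      push_cast
      ring

lemma PP_two : ∀ j : ℕ, PP 2 j = 1
  | 0 => rfl
  | 1 => by simp [PP]; norm_num
  | j + 2 => by simp [PP, PP_two (j + 1), PP_two j]; norm_num

lemma PP_neg_two : ∀ j : ℕ, PP (-2) j = (-1) ^ j * (2 * j + 1)
  | 0 => by simp [PP]
  | 1 => by simp [PP]; norm_num
  | j + 2 => by
      simp only [PP, PP_neg_two (j + 1), PP_neg_two j]
      push_cast
      ring

lemma exp_ne_one {φ : ℝ} (h1 : -(Real.pi / 2) < φ) (h2 : φ < 0) :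
    Complex.exp (φ * Complex.I) ≠ 1 := by
  intro h
  have h3 : (Complex.exp (φ * Complex.I)).im = 0 := by rw [h]; simp
  rw [Complex.exp_ofReal_mul_I_im] at h3
  have h4 : Real.sin φ < 0 := Real.sin_neg_of_neg_of_neg_pi_lt h2 (by linarith [Real.pi_pos])
  linarith

/-- `h ≠ ± 2` for roots. -/
lemma four_sub_ne {p : ℕ} (hp : 1 ≤ p) {φ : ℝ} (h1 : -(Real.pi / 2) < φ) (h2 : φ < 0) {h : ℂ}
    (hr : PP h p = Complex.exp (φ * Complex.I) * PP h (p - 1)) : 4 - h ^ 2 ≠ 0 := by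
  intro h0
  have h3 : (h - 2) * (h + 2) = 0 := by linear_combination -h0
  rcases mul_eq_zero.1 h3 with h4 | h4
  · have h5 : h = 2 := by linear_combination h4
    rw [h5, PP_two, PP_two, mul_one] at hr
    exact exp_ne_one h1 h2 hr.symm
  · have h5 : h = -2 := by linear_combination h4
    rw [h5, PP_neg_two, PP_neg_two] at hr
    have h6 := congrArg norm hr
    rw [norm_mul, norm_mul, norm_mul, Complex.norm_exp_ofReal_mul_I, norm_pow, norm_pow] at h6
    simp only [norm_neg, norm_one, one_pow, one_mul] at h6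
    have e1 : ((2 : ℂ) * (p : ℂ) + 1) = (((2 * p + 1 : ℕ) : ℝ) : ℂ) := by push_cast; ring
    have e2 : ((2 : ℂ) * ((p - 1 : ℕ) : ℂ) + 1) = (((2 * (p - 1) + 1 : ℕ) : ℝ) : ℂ) := by
      push_cast; ring
    rw [e1, e2, Complex.norm_real, Complex.norm_real, Real.norm_natCast, Real.norm_natCast] at h6
    have h7 : 2 * p + 1 = 2 * (p - 1) + 1 := by exact_mod_cast h6
    omega

lemma deriv_Qp (p : ℕ) (z h : ℂ) :
    (derivative (Qp p z)).eval h = DP h p - z * DP h (p - 1) := by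
  simp [Qp, DP]

/-- The key identity `(4 - h²) Q'(h) = z P_{p-1}(h) (2p(c - h) - (z - 1/z))` at a root. -/
lemma key_identity {p : ℕ} (hp : 1 ≤ p) {z h : ℂ} (hz : z ≠ 0)
    (hr : PP h p = z * PP h (p - 1)) :
    (4 - h ^ 2) * (derivative (Qp p z)).eval h
      = z * PP h (p - 1) * (2 * p * (z + z⁻¹ - h) - (z - z⁻¹)) := by
  obtain ⟨q, rfl⟩ : ∃ q, p = q + 1 := ⟨p - 1, by omega⟩
  rw [deriv_Qp]
  simp only [Nat.add_sub_cancel] at hr ⊢
  have h1 := DP_formula h (q + 1)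
  have h0 := DP_formula h q
  have e3 : PP h (q + 1 + 1) = h * PP h (q + 1) - PP h q := rfl
  rw [e3] at h1
  rw [hr] at h1 h0
  have : (4 - h ^ 2) * (DP h (q + 1) - z * DP h q)
      = (4 - h ^ 2) * DP h (q + 1) - z * ((4 - h ^ 2) * DP h q) := by ring
  rw [this, h1, h0]
  push_cast
  field_simp
  ring

theorem dif : S_diff := by
  intro p hp H hH φ hφ m
  have hp1 : 1 ≤ p := by omega
  have hIcc : φ ∈ Set.Icc (-(Real.pi / 2)) 0 := ⟨hφ.1.le, hφ.2.le⟩
  set z : ℂ := Complex.exp (φ * Complex.I) with hz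
  set h0 : ℂ := H m φ with hh0
  have hz0 : z ≠ 0 := Complex.exp_ne_zero _
  have hroot : ∀ m, PP (H m φ) p = z * PP (H m φ) (p - 1) := fun m => hH.root φ hIcc m
  have hinj : Function.Injective (fun m => H m φ) :=
    strips_inj hp1 (fun m => hH.strip φ hIcc m)
  have hQ' : (derivative (Qp p z)).eval h0 ≠ 0 :=
    simple_root hp1 (r := fun m => H m φ) hinj hroot m
  have h4 : 4 - h0 ^ 2 ≠ 0 := four_sub_ne hp1 hφ.1 hφ.2 (hroot m)
  have hkey := key_identity hp1 hz0 (hroot m)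
  have ecos : z + z⁻¹ = 2 * Real.cos φ := by
    rw [hz, ← Complex.exp_neg, Complex.ofReal_cos, Complex.cos]
    ring_nf
  have esin : z - z⁻¹ = 2 * Complex.I * Real.sin φ := by
    rw [hz, ← Complex.exp_neg, Complex.ofReal_sin, Complex.sin]
    have hI := Complex.I_sq
    ring_nf
    rw [hI]; ring
  rw [ecos, esin] at hkey
  have hne : z * PP h0 (p - 1) * (2 * p * (2 * Real.cos φ - h0) - 2 * Complex.I * Real.sin φ) ≠ 0 := by
    rw [← hkey]; exact mul_ne_zero h4 hQ'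
  have hden := right_ne_zero_of_mul hne
  refine ⟨hden, ?_⟩
  have hval : Complex.I * (4 - h0 ^ 2) / (2 * (p : ℂ) * (2 * Real.cos φ - h0)
      - 2 * Complex.I * Real.sin φ)
      = (Complex.I * z) * PP h0 (p - 1) / (derivative (Qp p z)).eval h0 := by
    rw [div_eq_div_iff hden hQ']
    linear_combination Complex.I * hkey
  rw [hval, hasDerivAt_iff_tendsto_slope]
  have hcont : ContinuousAt (H m) φ := (hH.cont m).continuousAt (Icc_mem_nhds hφ.1 hφ.2)
  -- the exponential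
  have hexp : HasDerivAt (fun ψ : ℝ => Complex.exp (ψ * Complex.I)) (Complex.I * z) φ := by
    have h1 : HasDerivAt (fun ψ : ℝ => (ψ : ℂ) * Complex.I) (1 * Complex.I) φ :=
      (Complex.ofRealCLM.hasDerivAt (x := φ)).mul_const Complex.I
    have h2 := h1.cexp
    rw [hz]
    convert! h2 using 1
    ring
  rw [hasDerivAt_iff_tendsto_slope] at hexp
  -- the polynomial
  have hds : Tendsto (fun ψ : ℝ => dslope (fun x => (Qp p z).eval x) h0 (H m ψ)) (𝓝[≠] φ)
      (𝓝 ((derivative (Qp p z)).eval h0)) := by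
    have h1 : ContinuousAt (dslope (fun x => (Qp p z).eval x) h0) h0 :=
      continuousAt_dslope_same.2 (Qp p z).differentiableAt
    have h2 : dslope (fun x => (Qp p z).eval x) h0 h0 = (derivative (Qp p z)).eval h0 := by
      rw [dslope_same, Polynomial.deriv]
    rw [← h2]
    have h3 : Tendsto (H m) (𝓝[≠] φ) (𝓝 h0) := hcont.tendsto.mono_left nhdsWithin_le_nhds
    exact h1.tendsto.comp h3
  have hP : Tendsto (fun ψ : ℝ => PP (H m ψ) (p - 1)) (𝓝[≠] φ) (𝓝 (PP h0 (p - 1))) := by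
    have h3 : Tendsto (H m) (𝓝[≠] φ) (𝓝 h0) := hcont.tendsto.mono_left nhdsWithin_le_nhds
    have h4 : Tendsto (fun x => (Pp (p - 1)).eval x) (𝓝 h0) (𝓝 ((Pp (p - 1)).eval h0)) :=
      (Pp (p - 1)).continuous.tendsto h0
    simp only [eval_Pp] at h4
    exact h4.comp h3
  have hlim := (hexp.mul hP).div hds hQ'
  refine hlim.congr' ?_
  have hne1 : ∀ᶠ ψ in 𝓝[≠] φ, dslope (fun x => (Qp p z).eval x) h0 (H m ψ) ≠ 0 :=
    hds.eventually_ne hQ'
  have hmem : ∀ᶠ ψ in 𝓝[≠] φ, ψ ∈ Set.Icc (-(Real.pi / 2)) (0 : ℝ) :=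
    nhdsWithin_le_nhds (Icc_mem_nhds hφ.1 hφ.2)
  filter_upwards [hne1, hmem] with ψ h5 h6
  have h7 := hH.root ψ h6 m
  have h8 : (H m ψ - h0) * dslope (fun x => (Qp p z).eval x) h0 (H m ψ)
      = (Qp p z).eval (H m ψ) - (Qp p z).eval h0 := by
    have := sub_smul_dslope (fun x => (Qp p z).eval x) h0 (H m ψ)
    rwa [smul_eq_mul] at this
  have h9 : PP h0 p - z * PP h0 (p - 1) = 0 := by rw [hroot m]; ring
  rw [eval_Qp p z (H m ψ), eval_Qp p z h0, h9, sub_zero, h7] at h8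
  have h10 : slope (fun ψ : ℝ => Complex.exp (ψ * Complex.I)) φ ψ
      = (ψ - φ)⁻¹ • (Complex.exp (ψ * Complex.I) - z) := slope_def_module _ _ _
  have h11 : slope (H m) φ ψ = (ψ - φ)⁻¹ • (H m ψ - h0) := slope_def_module _ _ _
  show slope (fun ψ : ℝ => Complex.exp (ψ * Complex.I)) φ ψ * PP (H m ψ) (p - 1)
      / dslope (fun x => (Qp p z).eval x) h0 (H m ψ) = slope (H m) φ ψ
  rw [h10, h11, div_eq_iff h5, smul_mul_assoc, smul_mul_assoc]
  congr 1
  linear_combination -h8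

end Pool.Agent.Q181.VC
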