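import Mathlib
import Pool.Agent.Q167.VC.Stm
import Pool.Agent.Q181.VC.Pol
import Pool.Agent.Q181.VC.Dif

/-!
Project VC (helper167), job ROO (helper181): existence of the family of eigenvalues.
-/

open Finset Filter Topology Polynomial

namespace Pool.Agent.Q181.VC

open Pool.Agent.Q167.VC

/-! ### The angle `al` -/

lemma cos_param (α b : ℝ) : Complex.cos ((α : ℂ) - b * Complex.I)
    = ((Real.cos α * Real.cosh b : ℝ) : ℂ) + ((Real.sin α * Real.sinh b : ℝ) : ℂ) * Complex.I := by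
  rw [Complex.cos_sub, Complex.cos_mul_I, Complex.sin_mul_I]
  push_cast
  ring

lemma norm_add_mul_I (x y : ℝ) : ‖(x : ℂ) + y * Complex.I‖ ^ 2 = x ^ 2 + y ^ 2 := by
  rw [← Complex.normSq_eq_norm_sq, Complex.normSq_add_mul_I]

lemma norm_param_sub (α b : ℝ) :
    ‖-2 * Complex.cos ((α : ℂ) - b * Complex.I) - 2‖ = 2 * (Real.cosh b + Real.cos α) := by
  have h0 : 0 ≤ 2 * (Real.cosh b + Real.cos α) := by
    have := Real.one_le_cosh b
    have := Real.neg_one_le_cos α
    linarith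
  have h1 : ‖-2 * Complex.cos ((α : ℂ) - b * Complex.I) - 2‖ ^ 2
      = (2 * (Real.cosh b + Real.cos α)) ^ 2 := by
    rw [cos_param]
    have e : -2 * (((Real.cos α * Real.cosh b : ℝ) : ℂ)
        + ((Real.sin α * Real.sinh b : ℝ) : ℂ) * Complex.I) - 2
        = (((-2 * (Real.cos α * Real.cosh b) - 2 : ℝ)) : ℂ)
          + ((-2 * (Real.sin α * Real.sinh b) : ℝ) : ℂ) * Complex.I := by
      push_cast; ring
    rw [e, norm_add_mul_I]
    have h2 := Real.sin_sq_add_cos_sq α
    have h3 := Real.cosh_sq b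
    have h4 : Real.sin α ^ 2 = 1 - Real.cos α ^ 2 := by linarith
    have h5 : Real.sinh b ^ 2 = Real.cosh b ^ 2 - 1 := by linarith
    calc _ = 4 * (Real.cos α * Real.cosh b + 1) ^ 2
          + 4 * (Real.sin α ^ 2 * Real.sinh b ^ 2) := by ring
      _ = _ := by rw [h4, h5]; ring
  exact (pow_left_inj₀ (norm_nonneg _) h0 two_ne_zero).1 h1

lemma norm_param_add (α b : ℝ) :
    ‖-2 * Complex.cos ((α : ℂ) - b * Complex.I) + 2‖ = 2 * (Real.cosh b - Real.cos α) := by
  have h0 : 0 ≤ 2 * (Real.cosh b - Real.cos α) := by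
    have := Real.one_le_cosh b
    have := Real.cos_le_one α
    linarith
  have h1 : ‖-2 * Complex.cos ((α : ℂ) - b * Complex.I) + 2‖ ^ 2
      = (2 * (Real.cosh b - Real.cos α)) ^ 2 := by
    rw [cos_param]
    have e : -2 * (((Real.cos α * Real.cosh b : ℝ) : ℂ)
        + ((Real.sin α * Real.sinh b : ℝ) : ℂ) * Complex.I) + 2
        = (((-2 * (Real.cos α * Real.cosh b) + 2 : ℝ)) : ℂ)
          + ((-2 * (Real.sin α * Real.sinh b) : ℝ) : ℂ) * Complex.I := by
      push_cast; ring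
    rw [e, norm_add_mul_I]
    have h2 := Real.sin_sq_add_cos_sq α
    have h3 := Real.cosh_sq b
    have h4 : Real.sin α ^ 2 = 1 - Real.cos α ^ 2 := by linarith
    have h5 : Real.sinh b ^ 2 = Real.cosh b ^ 2 - 1 := by linarith
    calc _ = 4 * (Real.cos α * Real.cosh b - 1) ^ 2
          + 4 * (Real.sin α ^ 2 * Real.sinh b ^ 2) := by ring
      _ = _ := by rw [h4, h5]; ring
  exact (pow_left_inj₀ (norm_nonneg _) h0 two_ne_zero).1 h1

lemma al_param {α b : ℝ} (h0 : 0 ≤ α) (h1 : α ≤ Real.pi) :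
    al (-2 * Complex.cos ((α : ℂ) - b * Complex.I)) = α := by
  unfold al
  rw [norm_param_sub, norm_param_add]
  have : (2 * (Real.cosh b + Real.cos α) - 2 * (Real.cosh b - Real.cos α)) / 4 = Real.cos α := by
    ring
  rw [this, Real.arccos_cos h0 h1]

lemma al_continuous : Continuous al := by
  unfold al
  fun_prop

/-! ### Roots -/

lemma PP_growth {h : ℂ} (hh : 4 ≤ ‖h‖) : ∀ j : ℕ, ‖PP h j‖ < ‖PP h (j + 1)‖
  | 0 => by
      simp only [PP, norm_one]
      have := norm_sub_norm_le h 1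
      rw [norm_one] at this
      linarith
  | j + 1 => by
      have h1 := PP_growth hh j
      have h2 : PP h (j + 1 + 1) = h * PP h (j + 1) - PP h j := rfl
      rw [h2]
      have h3 := norm_sub_norm_le (h * PP h (j + 1)) (PP h j)
      rw [norm_mul] at h3
      have h4 : 0 < ‖PP h (j + 1)‖ := lt_of_le_of_lt (norm_nonneg _) h1
      nlinarith

lemma root_bound {p : ℕ} (hp : 1 ≤ p) {φ : ℝ} {h : ℂ}
    (hr : PP h p = Complex.exp (φ * Complex.I) * PP h (p - 1)) : ‖h‖ < 4 := by
  by_contra hc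
  push Not at hc
  have h1 := PP_growth hc (p - 1)
  have e : p - 1 + 1 = p := by omega
  rw [e, hr, norm_mul, Complex.norm_exp_ofReal_mul_I, one_mul] at h1
  exact lt_irrefl _ h1

lemma PP_cos (t : ℂ) : ∀ j : ℕ,
    PP (-2 * Complex.cos t) j * Complex.sin (t / 2)
      = (-1) ^ j * Complex.sin ((j + 1 / 2) * t)
  | 0 => by
      simp only [PP, one_mul, pow_zero]
      congr 1; push_cast; ring
  | 1 => by
      simp only [PP, pow_one]
      have h1 : Complex.sin ((((1 : ℕ) : ℂ) + 1 / 2) * t) = Complex.sin (t / 2 + t) := by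
        congr 1; push_cast; ring
      have h2 : Complex.sin (t / 2) = Complex.sin (t - t / 2) := by congr 1; ring
      rw [h1, Complex.sin_add]
      have h3 : Complex.sin t * Complex.cos (t / 2) - Complex.cos t * Complex.sin (t / 2)
          = Complex.sin (t / 2) := by
        rw [← Complex.sin_sub]; congr 1; ring
      linear_combination h3
  | j + 2 => by
      have h1 := PP_cos t (j + 1)
      have h0 := PP_cos t j
      have e : PP (-2 * Complex.cos t) (j + 2)
          = (-2 * Complex.cos t) * PP (-2 * Complex.cos t) (j + 1) - PP (-2 * Complex.cos t) j := rfl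
      rw [e, sub_mul, mul_assoc, h1, h0]
      have h2 : Complex.sin (((j + 2 : ℕ) + 1 / 2) * t)
          = Complex.sin (((j + 1 : ℕ) + 1 / 2) * t + t) := by
        congr 1; push_cast; ring
      have h3 : Complex.sin (((j : ℕ) + 1 / 2) * t)
          = Complex.sin (((j + 1 : ℕ) + 1 / 2) * t - t) := by
        congr 1; push_cast; ring
      rw [h2, h3, Complex.sin_add, Complex.sin_sub]
      ring

/-- the roots at `φ = 0`. -/
noncomputable def h00 (p : ℕ) (m : Fin p) : ℂ :=
  -2 * Complex.cos (((((m : ℝ) + 1) * Real.pi / p : ℝ) : ℂ) - (0 : ℝ) * Complex.I)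

lemma angle_bounds {p : ℕ} (hp : 1 ≤ p) (m : Fin p) :
    0 < ((m : ℝ) + 1) * Real.pi / p ∧ ((m : ℝ) + 1) * Real.pi / p ≤ Real.pi := by
  have hp0 : (0 : ℝ) < p := by exact_mod_cast hp
  have hpi := Real.pi_pos
  have hm : ((m : ℕ) : ℝ) + 1 ≤ p := by exact_mod_cast m.2
  refine ⟨by positivity, ?_⟩
  rw [div_le_iff₀ hp0]
  nlinarith

lemma al_h00 {p : ℕ} (hp : 1 ≤ p) (m : Fin p) :
    al (h00 p m) = ((m : ℝ) + 1) * Real.pi / p := by
  obtain ⟨h1, h2⟩ := angle_bounds hp m
  exact al_param h1.le h2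

lemma root_h00 {p : ℕ} (hp : 1 ≤ p) (m : Fin p) :
    PP (h00 p m) p = PP (h00 p m) (p - 1) := by
  obtain ⟨h1, h2⟩ := angle_bounds hp m
  have hp0 : (p : ℂ) ≠ 0 := by
    have : p ≠ 0 := by omega
    exact_mod_cast this
  have hp0' : (p : ℝ) ≠ 0 := by
    have : p ≠ 0 := by omega
    exact_mod_cast this
  set t : ℝ := ((m : ℝ) + 1) * Real.pi / p with ht
  have e : h00 p m = -2 * Complex.cos (t : ℂ) := by
    simp [h00, ht]
  have hs : Complex.sin ((t : ℂ) / 2) ≠ 0 := by
    have : Complex.sin ((t : ℂ) / 2) = ((Real.sin (t / 2) : ℝ) : ℂ) := by push_cast; ring_nf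
    rw [this]
    have h3 : 0 < Real.sin (t / 2) := Real.sin_pos_of_pos_of_lt_pi (by linarith) (by
      have := Real.pi_pos; linarith)
    exact_mod_cast h3.ne'
  apply mul_right_cancel₀ hs
  rw [e, PP_cos, PP_cos]
  have hpt : (p : ℂ) * t = ((m : ℕ) + 1 : ℕ) * Real.pi := by
    rw [ht]; push_cast; field_simp
  have h3 : Complex.sin (((p : ℕ) + 1 / 2) * (t : ℂ))
      = Complex.sin (t / 2 + (((m : ℕ) + 1 : ℕ) : ℂ) * Real.pi) := by
    rw [← hpt]; congr 1; ring
  have h4 : Complex.sin (((p - 1 : ℕ) + 1 / 2) * (t : ℂ))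
      = Complex.sin (-(t / 2) + (((m : ℕ) + 1 : ℕ) : ℂ) * Real.pi) := by
    rw [← hpt]; congr 1
    have : ((p - 1 : ℕ) : ℂ) = (p : ℂ) - 1 := by
      rw [Nat.cast_sub hp]; simp
    rw [this]; ring
  rw [h3, h4, Complex.sin_antiperiodic.add_nat_mul_eq, Complex.sin_antiperiodic.add_nat_mul_eq,
    Complex.sin_neg]
  obtain ⟨q, rfl⟩ : ∃ q, p = q + 1 := ⟨p - 1, by omega⟩
  simp only [Nat.add_sub_cancel, pow_succ]
  ring

lemma h00_inj {p : ℕ} (hp : 1 ≤ p) : Function.Injective (h00 p) := by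
  have hp0 : (0 : ℝ) < p := by exact_mod_cast hp
  have hpi := Real.pi_pos
  apply strips_inj hp
  intro m
  rw [al_h00 hp m, sub_self, abs_zero]
  positivity

/-- location of all roots. -/
lemma root_loc (hpar : S_par) {p : ℕ} (hp : 1 ≤ p) {φ : ℝ}
    (hφ : φ ∈ Set.Icc (-(Real.pi / 2)) 0) {h : ℂ}
    (hr : PP h p = Complex.exp (φ * Complex.I) * PP h (p - 1)) :
    ∃ k : ℕ, k < p ∧ ((k : ℝ) + 1 / 2) * Real.pi / p < al h ∧
      al h ≤ ((k : ℝ) + 1) * Real.pi / p := by
  have hp0 : (0 : ℝ) < p := by exact_mod_cast hp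
  have hpi := Real.pi_pos
  rcases hφ.2.lt_or_eq with hlt | heq
  · obtain ⟨α, b, ha0, ha1, hb, rfl, hE⟩ := hpar p hp φ hφ.1 hlt h hr
    rw [al_param ha0.le ha1.le]
    have hs1 : 0 < Real.sin α := Real.sin_pos_of_pos_of_lt_pi ha0 ha1
    have hs2 : 0 < Real.sinh b := Real.sinh_pos_iff.2 hb
    have hs3 : 0 < Real.sinh (2 * p * b) := Real.sinh_pos_iff.2 (by positivity)
    have hs4 : Real.sin (2 * p * α) < 0 := by
      have h1 := hE.1
      by_contra hc
      push Not at hc
      have h2 : 0 ≤ Real.sin (2 * p * α) * Real.sin α := mul_nonneg hc hs1.le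
      have h3 : 0 < Real.sinh (2 * p * b) * Real.sinh b := mul_pos hs3 hs2
      linarith
    set k := ⌊p * α / Real.pi⌋₊ with hk
    have hx0 : 0 ≤ p * α / Real.pi := by positivity
    have hk1 : (k : ℝ) ≤ p * α / Real.pi := Nat.floor_le hx0
    have hk2 : p * α / Real.pi < k + 1 := Nat.lt_floor_add_one _
    rw [le_div_iff₀ hpi] at hk1
    rw [div_lt_iff₀ hpi] at hk2
    refine ⟨k, ?_, ?_, ?_⟩
    · have h1 : (k : ℝ) * Real.pi < p * Real.pi := by
        calc (k : ℝ) * Real.pi ≤ p * α := hk1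
          _ < p * Real.pi := by nlinarith
      have h2 := lt_of_mul_lt_mul_right h1 hpi.le
      exact_mod_cast h2
    · rw [div_lt_iff₀ hp0]
      by_contra hc
      push Not at hc
      have h1 : 0 ≤ Real.sin (2 * p * α - k * (2 * Real.pi)) := by
        apply Real.sin_nonneg_of_nonneg_of_le_pi
        · linarith
        · linarith
      rw [Real.sin_sub_nat_mul_two_pi] at h1
      linarith
    · rw [le_div_iff₀ hp0]; linarith
  · rw [heq] at hr
    have hr' : PP h p = 1 * PP h (p - 1) := by simpa using hr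
    obtain ⟨m, rfl⟩ := roots_all hp (h00_inj hp)
      (fun m => by rw [one_mul]; exact root_h00 hp m) hr'
    refine ⟨m, m.2, ?_, ?_⟩
    · rw [al_h00 hp m, div_lt_div_iff_of_pos_right hp0]; nlinarith
    · rw [al_h00 hp m]

/-- closed strip implies open strip for roots. -/
lemma strip_open (hpar : S_par) {p : ℕ} (hp : 1 ≤ p) {φ : ℝ}
    (hφ : φ ∈ Set.Icc (-(Real.pi / 2)) 0) {h : ℂ}
    (hr : PP h p = Complex.exp (φ * Complex.I) * PP h (p - 1)) (m : Fin p)
    (hs : |al h - ((m : ℝ) + 1) * Real.pi / p| ≤ Real.pi / (2 * p)) :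
    |al h - ((m : ℝ) + 1) * Real.pi / p| < Real.pi / (2 * p) := by
  obtain ⟨k, hk, h1, h2⟩ := root_loc hpar hp hφ hr
  have hp0 : (0 : ℝ) < p := by exact_mod_cast hp
  have hpi := Real.pi_pos
  have e1 : Real.pi / (2 * p) = Real.pi / p / 2 := by field_simp
  have hq : 0 < Real.pi / p := by positivity
  have e2 : ((m : ℝ) + 1) * Real.pi / p = ((m : ℝ) + 1) * (Real.pi / p) := by ring
  have e3 : ((k : ℝ) + 1) * Real.pi / p = ((k : ℝ) + 1) * (Real.pi / p) := by ring
  have e4 : ((k : ℝ) + 1 / 2) * Real.pi / p = ((k : ℝ) + 1 / 2) * (Real.pi / p) := by ring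
  rw [e1, e2] at hs ⊢
  rw [e3] at h2
  rw [e4] at h1
  set q := Real.pi / p
  rw [abs_le] at hs
  rw [abs_lt]
  have hkm : k = m := by
    rcases lt_trichotomy k (m : ℕ) with hlt | heq | hgt
    · exfalso
      have h3 : (k : ℝ) + 1 ≤ (m : ℕ) := by exact_mod_cast hlt
      have h4 : ((k : ℝ) + 1) * q ≤ ((m : ℕ) : ℝ) * q := mul_le_mul_of_nonneg_right h3 hq.le
      nlinarith [hs.1]
    · exact heq
    · exfalso
      have h3 : ((m : ℕ) : ℝ) + 1 ≤ k := by exact_mod_cast hgt
      have h4 : (((m : ℕ) : ℝ) + 1) * q ≤ (k : ℝ) * q := mul_le_mul_of_nonneg_right h3 hq.le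
      nlinarith [hs.2]
  rw [← hkm]
  constructor <;> nlinarith

/-- a root near an approximate root. -/
lemma exists_root_near {p : ℕ} (hp : 1 ≤ p) {z h0 : ℂ} {ε : ℝ} (hε : 0 < ε)
    (hlt : ‖(Qp p z).eval h0‖ < ε ^ p) : ∃ r, PP r p = z * PP r (p - 1) ∧ ‖r - h0‖ < ε := by
  obtain ⟨hm, hd⟩ := Qp_deg p hp z
  by_contra hc
  push Not at hc
  have hsp : (Qp p z).Splits := IsAlgClosed.splits _
  have h1 : ε ^ p ≤ ‖(Qp p z).eval h0‖ := by
    rw [hsp.eval_eq_prod_roots_of_monic hm]
    have h2 : ‖((Qp p z).roots.map (h0 - ·)).prod‖ = ((Qp p z).roots.map (fun r => ‖h0 - r‖)).prod := by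
      have := map_multiset_prod (normHom : ℂ →*₀ ℝ) ((Qp p z).roots.map (h0 - ·))
      rw [Multiset.map_map] at this
      exact this
    have h3 : ((Qp p z).roots.map (fun _ => ε)).prod ≤ ((Qp p z).roots.map (fun r => ‖h0 - r‖)).prod := by
      apply Multiset.prod_map_le_prod_map₀
      · intro i _; exact hε.le
      · intro i hi
        rw [mem_roots hm.ne_zero] at hi
        have := hc i (isRoot_Qp.1 hi)
        rwa [norm_sub_rev] at this
    rw [Multiset.map_const', Multiset.prod_replicate, ← hsp.natDegree_eq_card_roots, hd] at h3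
    rw [h2]; exact h3
  linarith

/-! ### The compact root set of a strip -/

/-- pairs (angle, root) in the closed strip. -/
def KS (p : ℕ) (m : Fin p) : Set (ℝ × ℂ) :=
  {x | x.1 ∈ Set.Icc (-(Real.pi / 2)) 0 ∧ ‖x.2‖ ≤ 4 ∧
    PP x.2 p = Complex.exp (x.1 * Complex.I) * PP x.2 (p - 1) ∧
    |al x.2 - ((m : ℝ) + 1) * Real.pi / p| ≤ Real.pi / (2 * p)}

lemma PP_continuous (j : ℕ) : Continuous (fun h : ℂ => PP h j) := by
  have := (Pp j).continuous
  simpa only [eval_Pp] using this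

lemma KS_compact (p : ℕ) (m : Fin p) : IsCompact (KS p m) := by
  have h1 : IsCompact (Set.Icc (-(Real.pi / 2)) (0 : ℝ) ×ˢ Metric.closedBall (0 : ℂ) 4) :=
    isCompact_Icc.prod (isCompact_closedBall _ _)
  refine h1.of_isClosed_subset ?_ ?_
  · refine IsClosed.and (isClosed_Icc.preimage continuous_fst) ?_
    refine IsClosed.and (isClosed_le (by fun_prop) continuous_const) ?_
    refine IsClosed.and ?_ ?_
    · have h2 := PP_continuous p
      have h3 := PP_continuous (p - 1)
      apply isClosed_eq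
      · exact h2.comp continuous_snd
      · exact Continuous.mul (by fun_prop) (h3.comp continuous_snd)
    · have h2 := al_continuous
      apply isClosed_le
      · exact continuous_abs.comp ((h2.comp continuous_snd).sub continuous_const)
      · exact continuous_const
  · rintro ⟨t, h⟩ ⟨h2, h3, -, -⟩
    exact ⟨h2, by simpa using h3⟩

/-- existence of a root in each strip for each angle. -/
lemma exists_in_strip (hpar : S_par) {p : ℕ} (hp : 1 ≤ p) (m : Fin p) {φ : ℝ}
    (hφ : φ ∈ Set.Icc (-(Real.pi / 2)) 0) :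
    ∃ h : ℂ, PP h p = Complex.exp (φ * Complex.I) * PP h (p - 1) ∧
      |al h - ((m : ℝ) + 1) * Real.pi / p| < Real.pi / (2 * p) := by
  set s : Set ℝ := {t | ∃ h : ℂ, PP h p = Complex.exp (((-t : ℝ) : ℂ) * Complex.I) * PP h (p - 1) ∧
      |al h - ((m : ℝ) + 1) * Real.pi / p| < Real.pi / (2 * p)} with hs
  have hpi := Real.pi_pos
  have hp0 : (0 : ℝ) < p := by exact_mod_cast hp
  have hclosed : IsClosed (s ∩ Set.Icc 0 (Real.pi / 2)) := by
    have h1 : IsClosed (Prod.fst '' (KS p m)) := ((KS_compact p m).image continuous_fst).isClosed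
    have h2 : s ∩ Set.Icc 0 (Real.pi / 2) = (fun t : ℝ => -t) ⁻¹' (Prod.fst '' (KS p m)) := by
      ext t
      constructor
      · rintro ⟨⟨h, hr, hst⟩, ht0, ht1⟩
        have hm : -t ∈ Set.Icc (-(Real.pi / 2)) (0 : ℝ) := ⟨by linarith, by linarith⟩
        exact ⟨(-t, h), ⟨hm, (root_bound hp hr).le, hr, hst.le⟩, rfl⟩
      · rintro ⟨⟨t', h⟩, ⟨hm, -, hr, hst⟩, he⟩
        simp only at he hr hst hm
        subst he
        exact ⟨⟨h, hr, strip_open hpar hp hm hr m hst⟩, by
          constructor <;> linarith [hm.1, hm.2]⟩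
    rw [h2]
    exact h1.preimage continuous_neg
  have h0 : (0 : ℝ) ∈ s := by
    refine ⟨h00 p m, ?_, ?_⟩
    · simpa using root_h00 hp m
    · rw [al_h00 hp m, sub_self, abs_zero]; positivity
  have hopen : ∀ x ∈ s ∩ Set.Ico 0 (Real.pi / 2), s ∈ 𝓝[>] x := by
    rintro x ⟨⟨h, hr, hst⟩, -⟩
    apply nhdsWithin_le_nhds
    -- a ball in the open strip
    have hop : IsOpen {g : ℂ | |al g - ((m : ℝ) + 1) * Real.pi / p| < Real.pi / (2 * p)} := by
      have h2 := al_continuous
      exact isOpen_lt (continuous_abs.comp (h2.sub continuous_const)) continuous_const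
    obtain ⟨ε, hε, hball⟩ := Metric.isOpen_iff.1 hop h hst
    have hc : Continuous (fun t : ℝ => ‖(Qp p (Complex.exp (((-t : ℝ) : ℂ) * Complex.I))).eval h‖) := by
      simp only [eval_Qp]
      fun_prop
    have hz : ‖(Qp p (Complex.exp (((-x : ℝ) : ℂ) * Complex.I))).eval h‖ < ε ^ p := by
      rw [eval_Qp, hr, sub_self, norm_zero]; positivity
    have hev := hc.continuousAt.eventually_lt continuousAt_const hz
    filter_upwards [hev] with t ht
    obtain ⟨r, hr1, hr2⟩ := exists_root_near hp hε ht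
    refine ⟨r, hr1, ?_⟩
    have : r ∈ Metric.ball h ε := by rwa [Metric.mem_ball, dist_eq_norm]
    exact hball this
  have hall := hclosed.Icc_subset_of_forall_mem_nhdsWithin h0 hopen
  have hmem : -φ ∈ Set.Icc (0 : ℝ) (Real.pi / 2) := ⟨by linarith [hφ.2], by linarith [hφ.1]⟩
  have := hall hmem
  simpa [hs] using this

/-- ROO: existence of the family. -/
theorem roo (h : S_par) : S_roots := by
  classical
  intro p hp
  have hp1 : 1 ≤ p := by omega
  have hex : ∀ (m : Fin p) (φ : ℝ), ∃ g : ℂ, φ ∈ Set.Icc (-(Real.pi / 2)) 0 →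
      PP g p = Complex.exp (φ * Complex.I) * PP g (p - 1) ∧
      |al g - ((m : ℝ) + 1) * Real.pi / p| < Real.pi / (2 * p) := by
    intro m φ
    by_cases hφ : φ ∈ Set.Icc (-(Real.pi / 2)) 0
    · obtain ⟨g, hg⟩ := exists_in_strip h hp1 m hφ
      exact ⟨g, fun _ => hg⟩
    · exact ⟨0, fun h' => absurd h' hφ⟩
  choose H hH using hex
  have huniq : ∀ (m : Fin p) (φ : ℝ), φ ∈ Set.Icc (-(Real.pi / 2)) 0 → ∀ g : ℂ,
      PP g p = Complex.exp (φ * Complex.I) * PP g (p - 1) →
      |al g - ((m : ℝ) + 1) * Real.pi / p| ≤ Real.pi / (2 * p) → g = H m φ := by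
    intro m φ hφ g hr hst
    have hst' := strip_open h hp1 hφ hr m hst
    have hinj : Function.Injective (fun m => H m φ) :=
      strips_inj hp1 (fun m => (hH m φ hφ).2)
    obtain ⟨k, hk⟩ := roots_all hp1 hinj (fun m => (hH m φ hφ).1) hr
    have hinj2 : Function.Injective (fun m => if m = k then H k φ else H m φ) := by
      have : (fun m => if m = k then H k φ else H m φ) = fun m => H m φ := by
        funext m; split_ifs with h1
        · rw [h1]
        · rfl
      rw [this]; exact hinj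
    by_contra hne
    -- the index of `g` is both `k` and `m`
    have hmk : m ≠ k := by
      intro h1; apply hne; rw [hk, h1]
    have h1 := (hH k φ hφ).2
    have h2 := hst'
    rw [hk] at h2
    -- two strips containing the same point
    have hp0 : (0 : ℝ) < p := by exact_mod_cast hp1
    have hpi := Real.pi_pos
    have e1 : Real.pi / (2 * p) = Real.pi / p / 2 := by field_simp
    have hq : 0 < Real.pi / p := by positivity
    have e2 : ((m : ℝ) + 1) * Real.pi / p = ((m : ℝ) + 1) * (Real.pi / p) := by ring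
    have e3 : ((k : ℝ) + 1) * Real.pi / p = ((k : ℝ) + 1) * (Real.pi / p) := by ring
    rw [e1, e3] at h1
    rw [e1, e2] at h2
    set q := Real.pi / p
    rw [abs_lt] at h1 h2
    have h3 : ((m : ℝ) - k) * q < 1 * q := by linarith [h1.1, h1.2, h2.1, h2.2]
    have h4 : ((k : ℝ) - m) * q < 1 * q := by linarith [h1.1, h1.2, h2.1, h2.2]
    have h5 := lt_of_mul_lt_mul_right h3 hq.le
    have h6 := lt_of_mul_lt_mul_right h4 hq.le
    have h7 : (m : ℕ) < (k : ℕ) + 1 := by
      have : ((m : ℕ) : ℝ) < ((k : ℕ) : ℝ) + 1 := by linarith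
      exact_mod_cast this
    have h8 : (k : ℕ) < (m : ℕ) + 1 := by
      have : ((k : ℕ) : ℝ) < ((m : ℕ) : ℝ) + 1 := by linarith
      exact_mod_cast this
    exact hmk (Fin.ext (by omega))
  refine ⟨H, ?_, ?_, ?_⟩
  · intro m
    rw [continuousOn_iff_isClosed]
    intro t ht
    have hcl : IsClosed (Prod.fst '' (KS p m ∩ (Prod.snd ⁻¹' t))) := by
      have h1 : IsCompact (KS p m ∩ (Prod.snd ⁻¹' t)) :=
        (KS_compact p m).inter_right (ht.preimage continuous_snd)
      exact (h1.image continuous_fst).isClosed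
    refine ⟨_, hcl, ?_⟩
    ext φ
    constructor
    · rintro ⟨h1, h2⟩
      refine ⟨⟨(φ, H m φ), ⟨⟨h2, (root_bound hp1 (hH m φ h2).1).le, (hH m φ h2).1,
        (hH m φ h2).2.le⟩, h1⟩, rfl⟩, h2⟩
    · rintro ⟨⟨⟨φ', g⟩, ⟨⟨h1, h2, h3, h4⟩, h5⟩, h6⟩, h7⟩
      simp only at h1 h2 h3 h4 h6
      subst h6
      refine ⟨?_, h7⟩
      have := huniq m φ' h1 g h3 h4
      show H m φ' ∈ t
      rw [← this]; exact h5
  · intro φ hφ m
    exact (hH m φ hφ).1
  · intro φ hφ m
    exact (hH m φ hφ).2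

end Pool.Agent.Q181.VC
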